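import Mathlib
import Pool.Agent.K7.H85.Biorth
import Pool.Agent.K7.H85.ConvexCyclicDef

set_option autoImplicit false

/-!
# Every separable Banach space carries a convex-cyclic operator whose square is not convex-cyclic

The operator is `S = a (2 + ∑ w_n φ_n ⊗ x_n)`, with a biorthogonal sequence `(x_n, φ_n)` with dense span,
weights `w_n > 0` strictly decreasing to zero fast, and `a = -1` (real scalars) or `a = i` (complex
scalars).
-/

namespace Pool.Agent.Results.MP_8292e8_an.EverySeparableSpace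

open Pool.Agent.K7.H85 Pool.Agent.K7.H85.CC Filter Topology

lemma exists_a (𝕜 : Type*) [RCLike 𝕜] : ∃ a : 𝕜, a ^ 4 = 1 ∧ ‖a‖ = 1 ∧
    (∀ b : 𝕜, b ≠ 0 → ∃ j : ℕ, 0 < RCLike.re (a ^ j * b)) ∧
    ∃ s : ℝ, a ^ 2 = (s : 𝕜) ∧ (s = 1 ∧ (RCLike.I : 𝕜) = 0 ∨ (RCLike.I : 𝕜) * RCLike.I = -1) := by
  rcases RCLike.I_mul_I (K := 𝕜) with h | h
  · refine ⟨-1, by norm_num, by simp, ?_, 1, by norm_num, Or.inl ⟨rfl, h⟩⟩
    intro b hb
    have him : RCLike.im b = 0 := by
      have := RCLike.mul_im_I_ax (K := 𝕜) b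
      rw [h] at this
      simpa using this.symm
    have hre : RCLike.re b ≠ 0 := by
      intro hre
      apply hb
      rw [← RCLike.re_add_im b, hre, him]
      simp
    rcases lt_or_gt_of_ne hre with h' | h'
    · exact ⟨1, by simpa using h'⟩
    · exact ⟨0, by simpa using h'⟩
  · have hI : (RCLike.I : 𝕜) ≠ 0 := by
      intro h0; rw [h0] at h; simp at h
    refine ⟨RCLike.I, ?_, RCLike.norm_I_of_ne_zero hI, ?_, -1, ?_, Or.inr h⟩
    · have : (RCLike.I : 𝕜) ^ 4 = (RCLike.I * RCLike.I) * (RCLike.I * RCLike.I) := by ring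
      rw [this, h]; norm_num
    · intro b hb
      have hre1 : RCLike.re ((RCLike.I : 𝕜) * b) = -RCLike.im b := RCLike.I_mul_re b
      have h2 : (RCLike.I : 𝕜) ^ 2 * b = -b := by rw [pow_two, h]; ring
      have h3 : (RCLike.I : 𝕜) ^ 3 * b = -(RCLike.I * b) := by
        have : (RCLike.I : 𝕜) ^ 3 = (RCLike.I * RCLike.I) * RCLike.I := by ring
        rw [this, h]; ring
      rcases lt_trichotomy (RCLike.re b) 0 with hr | hr | hr
      · exact ⟨2, by rw [h2, map_neg]; linarith⟩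
      · rcases lt_trichotomy (RCLike.im b) 0 with hi | hi | hi
        · exact ⟨1, by rw [pow_one, hre1]; linarith⟩
        · exfalso
          apply hb
          rw [← RCLike.re_add_im b, hr, hi]
          simp
        · exact ⟨3, by rw [h3, map_neg, hre1]; linarith⟩
      · exact ⟨0, by simpa using hr⟩
    · rw [pow_two, h]; simp

/-- A strictly decreasing sequence of weights with `w n * d n ≤ 2^{-n}`. -/
lemma exists_weights (d : ℕ → ℝ) (hd : ∀ n, 0 ≤ d n) : ∃ w : ℕ → ℝ, (∀ n, 0 < w n) ∧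
    (∀ n m, n < m → w m < w n) ∧ ∀ n, w n * d n ≤ (1 / 2) ^ n := by
  refine ⟨fun n => (1 / 2) ^ n * (∏ k ∈ Finset.range (n + 1), (1 + d k))⁻¹, ?_, ?_, ?_⟩
  · intro n
    have : 0 < ∏ k ∈ Finset.range (n + 1), (1 + d k) :=
      Finset.prod_pos fun k _ => by have := hd k; linarith
    positivity
  · intro n m hnm
    refine strictAnti_nat_of_succ_lt (f := fun n => (1 / 2 : ℝ) ^ n *
      (∏ k ∈ Finset.range (n + 1), (1 + d k))⁻¹) ?_ hnm
    intro n
    have hp : 0 < ∏ k ∈ Finset.range (n + 1), (1 + d k) :=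
      Finset.prod_pos fun k _ => by have := hd k; linarith
    have h1 : (∏ k ∈ Finset.range (n + 1 + 1), (1 + d k))⁻¹ ≤
        (∏ k ∈ Finset.range (n + 1), (1 + d k))⁻¹ := by
      refine inv_anti₀ hp ?_
      rw [Finset.prod_range_succ _ (n + 1)]
      nlinarith [hd (n + 1)]
    calc (1 / 2 : ℝ) ^ (n + 1) * (∏ k ∈ Finset.range (n + 1 + 1), (1 + d k))⁻¹
        ≤ (1 / 2 : ℝ) ^ (n + 1) * (∏ k ∈ Finset.range (n + 1), (1 + d k))⁻¹ := by gcongr
      _ < (1 / 2 : ℝ) ^ n * (∏ k ∈ Finset.range (n + 1), (1 + d k))⁻¹ := by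
          have h2 : (1 / 2 : ℝ) ^ (n + 1) < (1 / 2 : ℝ) ^ n :=
            pow_lt_pow_right_of_lt_one₀ (by norm_num) (by norm_num) (Nat.lt_succ_self n)
          have h3 : 0 < (∏ k ∈ Finset.range (n + 1), (1 + d k))⁻¹ := inv_pos.2 hp
          nlinarith
  · intro n
    have hp : 0 < ∏ k ∈ Finset.range n, (1 + d k) :=
      Finset.prod_pos fun k _ => by have := hd k; linarith
    have hp1 : ∀ m, 1 ≤ ∏ k ∈ Finset.range m, (1 + d k) := by
      intro m
      induction m with
      | zero => simp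
      | succ m ih =>
        rw [Finset.prod_range_succ]
        nlinarith [hd m]
    have hp1n := hp1 n
    have h1 : (∏ k ∈ Finset.range (n + 1), (1 + d k))⁻¹ * d n ≤ 1 := by
      rw [Finset.prod_range_succ, inv_mul_le_iff₀ (by have := hd n; positivity)]
      have := hd n
      nlinarith
    calc (1 / 2 : ℝ) ^ n * (∏ k ∈ Finset.range (n + 1), (1 + d k))⁻¹ * d n
        = (1 / 2 : ℝ) ^ n * ((∏ k ∈ Finset.range (n + 1), (1 + d k))⁻¹ * d n) := by ring
      _ ≤ (1 / 2 : ℝ) ^ n * 1 := by gcongr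
      _ = (1 / 2 : ℝ) ^ n := by ring

/-- Non-convex-cyclicity of `S ^ 2` from an eigenfunctional of `S ^ 2` with real eigenvalue `c`
(`c ≥ 0` in the case of real scalars). -/
lemma not_convexCyclic {𝕜 : Type*} [RCLike 𝕜] {X : Type*} [NormedAddCommGroup X] [NormedSpace 𝕜 X]
    (T : X →L[𝕜] X) (ℓ : X →L[𝕜] 𝕜) (x₀ : X) (hx₀ : ℓ x₀ = 1) (c : ℝ)
    (hc : 0 ≤ c ∨ (RCLike.I : 𝕜) * RCLike.I = -1) (hℓ : ∀ y, ℓ (T y) = (c : 𝕜) * ℓ y) :
    ¬ ConvexCyclic T := by
  rintro ⟨v, hv⟩
  have hpow : ∀ k : ℕ, ℓ ((T ^ k) v) = ((c ^ k : ℝ) : 𝕜) * ℓ v := by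
    intro k
    induction k with
    | zero => simp
    | succ k ih =>
      rw [pow_succ', mul_apply_eq_comp, hℓ, ih]
      push_cast
      ring
  have hco : ∀ y ∈ coOrb T v, ∃ r : ℝ, ℓ y = (r : 𝕜) * ℓ v ∧ (0 ≤ c → 0 ≤ r) := by
    rintro y ⟨t, ht0, -, rfl⟩
    refine ⟨t.sum fun k r => r * c ^ k, ?_, ?_⟩
    · simp only [Finsupp.sum, map_sum, map_smul, hpow, smul_eq_mul, RCLike.ofReal_mul,
        Finset.sum_mul, mul_assoc]
    · intro hc0
      exact Finset.sum_nonneg fun k _ => mul_nonneg (ht0 k) (pow_nonneg hc0 k)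
  have hval : ∀ z : 𝕜, ℓ (z • x₀) = z := by
    intro z; rw [map_smul, hx₀, smul_eq_mul, mul_one]
  by_cases hv0 : ℓ v = 0
  · have hopen : IsOpen {y : X | ℓ y ≠ 0} := isOpen_ne_fun ℓ.continuous continuous_const
    obtain ⟨y, hy1, hy2⟩ := hv.inter_open_nonempty _ hopen ⟨x₀, by
      simp only [Set.mem_ofPred_eq, hx₀]; exact one_ne_zero⟩
    obtain ⟨r, hr, -⟩ := hco y hy2
    apply hy1
    rw [hr, hv0, mul_zero]
  · have hnorm : 0 < ‖ℓ v‖ ^ 2 := by positivity
    rcases hc with hc | hI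
    · -- real eigenvalue `≥ 0`
      have hopen : IsOpen {y : X | RCLike.re (ℓ y * (starRingEnd 𝕜) (ℓ v)) < 0} :=
        isOpen_lt (RCLike.continuous_re.comp (ℓ.continuous.mul continuous_const)) continuous_const
      obtain ⟨y, hy1, hy2⟩ := hv.inter_open_nonempty _ hopen ⟨(-ℓ v) • x₀, by
        simp only [Set.mem_ofPred_eq, hval]
        rw [neg_mul, RCLike.mul_conj, map_neg, ← RCLike.ofReal_pow, RCLike.ofReal_re]
        linarith⟩
      obtain ⟨r, hr, hr0⟩ := hco y hy2
      have h1 : RCLike.re (ℓ y * (starRingEnd 𝕜) (ℓ v)) = r * ‖ℓ v‖ ^ 2 := by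
        rw [hr, mul_assoc, RCLike.mul_conj, ← RCLike.ofReal_pow, ← RCLike.ofReal_mul,
          RCLike.ofReal_re]
      have h2 : RCLike.re (ℓ y * (starRingEnd 𝕜) (ℓ v)) < 0 := hy1
      have := mul_nonneg (hr0 hc) hnorm.le
      linarith
    · have hopen : IsOpen {y : X | 0 < RCLike.im (ℓ y * (starRingEnd 𝕜) (ℓ v))} :=
        isOpen_lt continuous_const (RCLike.continuous_im.comp (ℓ.continuous.mul continuous_const))
      have hI1 : RCLike.im (RCLike.I : 𝕜) = 1 := by
        rcases RCLike.I_eq_zero_or_im_I_eq_one (K := 𝕜) with h0 | h1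
        · rw [h0] at hI; simp at hI
        · exact h1
      obtain ⟨y, hy1, hy2⟩ := hv.inter_open_nonempty _ hopen ⟨(RCLike.I * ℓ v) • x₀, by
        simp only [Set.mem_ofPred_eq, hval]
        rw [mul_assoc, RCLike.mul_conj, ← RCLike.ofReal_pow, RCLike.im_mul_ofReal, hI1]
        linarith⟩
      obtain ⟨r, hr, -⟩ := hco y hy2
      have h1 : RCLike.im (ℓ y * (starRingEnd 𝕜) (ℓ v)) = 0 := by
        rw [hr, mul_assoc, RCLike.mul_conj, ← RCLike.ofReal_pow, ← RCLike.ofReal_mul,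
          RCLike.ofReal_im]
      have h2 : 0 < RCLike.im (ℓ y * (starRingEnd 𝕜) (ℓ v)) := hy1
      linarith

/-- On every nonzero separable Banach space, real or complex, there is a convex-cyclic operator whose
square is not convex-cyclic. -/
theorem result (𝕜 : Type*) [RCLike 𝕜] (X : Type*) [NormedAddCommGroup X] [NormedSpace 𝕜 X]
    [CompleteSpace X] [TopologicalSpace.SeparableSpace X] [Nontrivial X] :
    ∃ S : X →L[𝕜] X, ConvexCyclic S ∧ ¬ ConvexCyclic (S ^ 2) := by
  obtain ⟨x, φ, horth, hdiag, hdense⟩ := Biorth.exists_biorth 𝕜 X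
  obtain ⟨a, ha4, hanorm, hre, s, hs, hs'⟩ := exists_a 𝕜
  obtain ⟨w, hw0, hwlt, hwd⟩ := exists_weights (fun n => ‖φ n‖ * ‖x n‖) (fun n => by positivity)
  -- the nuclear operator
  let A : ℕ → (X →L[𝕜] X) := fun n => ((w n : ℝ) : 𝕜) • (φ n).smulRight (x n)
  have hA : Summable A := by
    refine Summable.of_norm_bounded (summable_geometric_of_lt_one (r := (1 / 2 : ℝ)) (by norm_num)
      (by norm_num)) fun n => ?_
    simp only [A]
    rw [norm_smul, ContinuousLinearMap.norm_smulRight_apply, RCLike.norm_ofReal, abs_of_pos (hw0 n)]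
    exact hwd n
  have hAx : ∀ m, (∑' n, A n) (x m) = ((w m : ℝ) : 𝕜) • x m := by
    intro m
    have h1 : HasSum (fun n => A n (x m)) ((∑' n, A n) (x m)) := hasSum_eval A hA (x m)
    have h2 : HasSum (fun n => A n (x m)) (A m (x m)) := by
      refine hasSum_single m fun n hn => ?_
      simp only [A, smul_apply, ContinuousLinearMap.smulRight_apply]
      rw [horth n m (Ne.symm hn), zero_smul, smul_zero]
    rw [h1.unique h2]
    simp only [A, smul_apply, ContinuousLinearMap.smulRight_apply]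
    rcases hdiag m with h | h
    · rw [h.1]; simp
    · rw [h, one_smul]
  have hφA : ∀ m y, φ m ((∑' n, A n) y) = ((w m : ℝ) : 𝕜) * φ m y := by
    intro m y
    have h1 : HasSum (fun n => A n y) ((∑' n, A n) y) := hasSum_eval A hA y
    have h1' : HasSum (fun n => φ m (A n y)) (φ m ((∑' n, A n) y)) := hasSum_map (φ m) h1
    have h2 : HasSum (fun n => φ m (A n y)) (φ m (A m y)) := by
      refine hasSum_single m fun n hn => ?_
      simp only [A, smul_apply, ContinuousLinearMap.smulRight_apply, map_smul]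
      rw [horth m n hn, smul_zero, smul_zero]
    rw [h1'.unique h2]
    simp only [A, smul_apply, ContinuousLinearMap.smulRight_apply, map_smul]
    rcases hdiag m with h | h
    · rw [h.2]; simp
    · rw [h]; simp
  let S : X →L[𝕜] X := a • ((2 : 𝕜) • ContinuousLinearMap.id 𝕜 X + ∑' n, A n)
  have hSx : ∀ m, S (x m) = (a * ((2 + w m : ℝ) : 𝕜)) • x m := by
    intro m
    simp only [S, smul_apply, add_apply, ContinuousLinearMap.id_apply]
    rw [hAx m, ← add_smul, smul_smul]
    push_cast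
    rfl
  have hSpow : ∀ k m, (S ^ k) (x m) = (a * ((2 + w m : ℝ) : 𝕜)) ^ k • x m := by
    intro k m
    induction k with
    | zero => simp
    | succ k ih =>
      rw [pow_succ', mul_apply_eq_comp, ih, map_smul, hSx, smul_smul, pow_succ]
  have hφS : ∀ m y, φ m (S y) = (a * ((2 + w m : ℝ) : 𝕜)) * φ m y := by
    intro m y
    simp only [S, smul_apply, add_apply, ContinuousLinearMap.id_apply, map_smul, map_add, hφA,
      smul_eq_mul]
    push_cast
    ring
  refine ⟨S, ?_, ?_⟩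
  · -- convex-cyclicity
    let c : ℕ → ℝ := fun n => (1 / 2) ^ n / (1 + ‖x n‖)
    have hc0 : ∀ n, 0 < c n := fun n => by positivity
    have hcx : ∀ n, ‖((c n : ℝ) : 𝕜) • x n‖ ≤ (1 / 2) ^ n := by
      intro n
      rw [norm_smul, RCLike.norm_ofReal, abs_of_pos (hc0 n)]
      simp only [c]
      rw [div_mul_eq_mul_div, div_le_iff₀ (by positivity)]
      have : 0 ≤ (1 / 2 : ℝ) ^ n := by positivity
      nlinarith [norm_nonneg (x n)]
    have hsum : Summable fun n => ((c n : ℝ) : 𝕜) • x n :=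
      Summable.of_norm_bounded (summable_geometric_of_lt_one (r := (1 / 2 : ℝ)) (by norm_num)
        (by norm_num)) hcx
    refine ⟨∑' n, ((c n : ℝ) : 𝕜) • x n, dense_of_unbounded S _ fun f hf u => ?_⟩
    -- the least index with `f (x n) ≠ 0`
    have hex : ∃ n, f (x n) ≠ 0 := by
      by_contra hcon
      push Not at hcon
      apply hf
      ext y
      have hle : Submodule.span 𝕜 (Set.range x) ≤ LinearMap.ker (f : X →ₗ[𝕜] 𝕜) := by
        rw [Submodule.span_le]
        rintro _ ⟨n, rfl⟩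
        exact hcon n
      have hcl : IsClosed {y : X | f y = 0} := isClosed_eq f.continuous continuous_const
      have := hdense.closure_eq
      have hy : y ∈ closure (Submodule.span 𝕜 (Set.range x) : Set X) := by rw [this]; trivial
      have h2 : closure (Submodule.span 𝕜 (Set.range x) : Set X) ⊆ {y : X | f y = 0} :=
        closure_minimal (fun z hz => hle hz) hcl
      exact h2 hy
    classical
    let n₀ := Nat.find hex
    have hn₀ : f (x n₀) ≠ 0 := Nat.find_spec hex
    have hmin : ∀ n, n < n₀ → f (x n) = 0 := fun n hn => not_not.1 (Nat.find_min hex hn)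
    obtain ⟨j, hj⟩ := hre (f (x n₀)) hn₀
    set δ : ℝ := RCLike.re (a ^ j * f (x n₀)) with hδ
    -- the values along the orbit
    have hval : ∀ k, HasSum (fun n => c n * (2 + w n) ^ k * RCLike.re (a ^ k * f (x n)))
        (RCLike.re (f ((S ^ k) (∑' n, ((c n : ℝ) : 𝕜) • x n)))) := by
      intro k
      have h1 : HasSum (fun n => f ((S ^ k) (((c n : ℝ) : 𝕜) • x n)))
          (f ((S ^ k) (∑' n, ((c n : ℝ) : 𝕜) • x n))) :=
        hasSum_map f (hasSum_map (S ^ k) hsum.hasSum)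
      have h2 := hasSum_re' h1
      have h3 : (fun n => RCLike.re (f ((S ^ k) (((c n : ℝ) : 𝕜) • x n)))) =
          fun n => c n * (2 + w n) ^ k * RCLike.re (a ^ k * f (x n)) := by
        funext n
        have e1 : f ((S ^ k) (((c n : ℝ) : 𝕜) • x n)) =
            ((c n * (2 + w n) ^ k : ℝ) : 𝕜) * (a ^ k * f (x n)) := by
          rw [map_smul, hSpow, map_smul, map_smul, smul_eq_mul, smul_eq_mul, mul_pow]
          push_cast
          ring
        rw [e1, RCLike.re_ofReal_mul]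
      rw [h3] at h2
      exact h2
    -- lower bound along the residue class of `j`
    have ha4k : ∀ i : ℕ, a ^ (4 * i + j) = a ^ j := by
      intro i
      rw [pow_add, pow_mul, ha4, one_pow, one_mul]
    set ρ₀ := 2 + w n₀ with hρ₀
    set ρ₁ := 2 + w (n₀ + 1) with hρ₁
    have hρ : ρ₁ < ρ₀ := by have := hwlt n₀ (n₀ + 1) (Nat.lt_succ_self _); linarith
    have hρ₁2 : 2 < ρ₁ := by have := hw0 (n₀ + 1); linarith
    have hlow : ∀ i : ℕ, c n₀ * ρ₀ ^ (4 * i + j) * δ - ρ₁ ^ (4 * i + j) * ‖f‖ * 2 ≤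
        RCLike.re (f ((S ^ (4 * i + j)) (∑' n, ((c n : ℝ) : 𝕜) • x n))) := by
      intro i
      have hl1 : HasSum (fun n => if n = n₀ then c n₀ * ρ₀ ^ (4 * i + j) * δ else 0)
          (c n₀ * ρ₀ ^ (4 * i + j) * δ) := hasSum_ite_eq n₀ _
      have hl2 : HasSum (fun n : ℕ => ρ₁ ^ (4 * i + j) * ‖f‖ * (1 / 2) ^ n)
          (ρ₁ ^ (4 * i + j) * ‖f‖ * 2) := by
        have := hasSum_geometric_two.mul_left (ρ₁ ^ (4 * i + j) * ‖f‖)
        simpa using this
      refine hasSum_le ?_ (hl1.sub hl2) (hval (4 * i + j))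
      intro n
      have hpos : 0 ≤ ρ₁ ^ (4 * i + j) * ‖f‖ * (1 / 2) ^ n := by positivity
      rcases lt_trichotomy n n₀ with hn | hn | hn
      · rw [if_neg hn.ne, hmin n hn]
        simp only [mul_zero, map_zero]
        linarith
      · subst hn
        rw [if_pos rfl, ha4k]
        linarith
      · rw [if_neg hn.ne']
        have e1 : |c n * (2 + w n) ^ (4 * i + j) * RCLike.re (a ^ (4 * i + j) * f (x n))| ≤
            ρ₁ ^ (4 * i + j) * ‖f‖ * (1 / 2) ^ n := by
          have e2 : |RCLike.re (a ^ (4 * i + j) * f (x n))| ≤ ‖f‖ * ‖x n‖ := by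
            refine (RCLike.abs_re_le_norm _).trans ?_
            rw [norm_mul, norm_pow, hanorm, one_pow, one_mul]
            exact f.le_opNorm _
          have e3 : 2 + w n ≤ ρ₁ := by
            rcases eq_or_lt_of_le (Nat.succ_le_of_lt hn) with h | h
            · rw [hρ₁, ← h]
            · have := hwlt (n₀ + 1) n h
              linarith
          have e4 : 0 < 2 + w n := by have := hw0 n; linarith
          have e5 := hcx n
          rw [norm_smul, RCLike.norm_ofReal, abs_of_pos (hc0 n)] at e5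
          rw [abs_mul, abs_mul, abs_of_pos (hc0 n), abs_of_pos (pow_pos e4 _)]
          calc c n * (2 + w n) ^ (4 * i + j) * |RCLike.re (a ^ (4 * i + j) * f (x n))|
              ≤ c n * ρ₁ ^ (4 * i + j) * (‖f‖ * ‖x n‖) := by
                have := hc0 n
                gcongr
            _ = ρ₁ ^ (4 * i + j) * ‖f‖ * (c n * ‖x n‖) := by ring
            _ ≤ ρ₁ ^ (4 * i + j) * ‖f‖ * (1 / 2) ^ n := by gcongr
        have := neg_le_of_abs_le e1
        linarith
    -- the lower bound tends to infinity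
    have hδpos : 0 < c n₀ * δ := mul_pos (hc0 n₀) hj
    have hρ₀0 : 0 < ρ₀ := by linarith
    have hρ₁0 : 0 < ρ₁ := by linarith
    have hidx : Tendsto (fun i : ℕ => 4 * i + j) atTop atTop :=
      tendsto_atTop_mono (fun i => by simp only [id]; omega) tendsto_id
    have hratio : Tendsto (fun i : ℕ => (ρ₁ / ρ₀) ^ (4 * i + j)) atTop (𝓝 0) := by
      have h1 : Tendsto (fun k : ℕ => (ρ₁ / ρ₀) ^ k) atTop (𝓝 0) :=
        tendsto_pow_atTop_nhds_zero_of_lt_one (div_nonneg hρ₁0.le hρ₀0.le)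
          (by rw [div_lt_one hρ₀0]; exact hρ)
      exact h1.comp hidx
    have hbig : Tendsto (fun i : ℕ => ρ₀ ^ (4 * i + j)) atTop atTop := by
      have h1 : Tendsto (fun k : ℕ => ρ₀ ^ k) atTop atTop := tendsto_pow_atTop_atTop_of_one_lt (by linarith)
      exact h1.comp hidx
    have hev1 : ∀ᶠ i : ℕ in atTop, (ρ₁ / ρ₀) ^ (4 * i + j) * (‖f‖ * 2) < c n₀ * δ / 2 := by
      have h1 : Tendsto (fun i : ℕ => (ρ₁ / ρ₀) ^ (4 * i + j) * (‖f‖ * 2)) atTop (𝓝 (0 * (‖f‖ * 2))) :=
        hratio.mul_const _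
      rw [zero_mul] at h1
      exact h1.eventually (gt_mem_nhds (by linarith))
    have hev2 : ∀ᶠ i : ℕ in atTop, u / (c n₀ * δ / 2) ≤ ρ₀ ^ (4 * i + j) := hbig.eventually_ge_atTop _
    obtain ⟨i, hi1, hi2⟩ := (hev1.and hev2).exists
    refine ⟨4 * i + j, le_trans ?_ (hlow i)⟩
    have hρ₀pos : 0 < ρ₀ ^ (4 * i + j) := pow_pos hρ₀0 _
    have e1 : ρ₁ ^ (4 * i + j) = (ρ₁ / ρ₀) ^ (4 * i + j) * ρ₀ ^ (4 * i + j) := by
      rw [div_pow, div_mul_cancel₀ _ hρ₀pos.ne']
    rw [div_le_iff₀ (by linarith)] at hi2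
    calc u ≤ ρ₀ ^ (4 * i + j) * (c n₀ * δ / 2) := hi2
      _ ≤ ρ₀ ^ (4 * i + j) * (c n₀ * δ - (ρ₁ / ρ₀) ^ (4 * i + j) * (‖f‖ * 2)) := by
          gcongr
          linarith
      _ = c n₀ * ρ₀ ^ (4 * i + j) * δ - ρ₁ ^ (4 * i + j) * ‖f‖ * 2 := by
          rw [e1]; ring
  · -- the square
    obtain ⟨m, hm⟩ : ∃ m, φ m (x m) = 1 := by
      by_contra hcon
      push Not at hcon
      have hx0 : ∀ n, x n = 0 := fun n => ((hdiag n).resolve_right (hcon n)).1
      have : Submodule.span 𝕜 (Set.range x) = ⊥ := by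
        rw [Submodule.span_eq_bot]
        rintro _ ⟨n, rfl⟩
        exact hx0 n
      rw [this] at hdense
      obtain ⟨y, hy⟩ := exists_ne (0 : X)
      have h1 : closure ((⊥ : Submodule 𝕜 X) : Set X) = Set.univ := hdense.closure_eq
      have h2 : closure ((⊥ : Submodule 𝕜 X) : Set X) = {0} := by simp
      have : y ∈ closure ((⊥ : Submodule 𝕜 X) : Set X) := by rw [h1]; trivial
      rw [h2] at this
      exact hy this
    refine not_convexCyclic (S ^ 2) (φ m) (x m) hm (s * (2 + w m) ^ 2) ?_ ?_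
    · rcases hs' with ⟨h, -⟩ | h
      · left; rw [h]; positivity
      · exact Or.inr h
    · intro y
      rw [pow_two, mul_apply_eq_comp, hφS, hφS, ← mul_assoc]
      congr 1
      rw [RCLike.ofReal_mul, ← hs]
      push_cast
      ring

end Pool.Agent.Results.MP_8292e8_an.EverySeparableSpace
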